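import Pool.Agent.Run7.h479.XX.Tensor

/-!
# The condition `Λ ≠ 0` of the Gross–Prasad conjecture by the power traces of the Satake parameters

In the notation of the problem let `t_v`, `t'_v` be the Satake parameters of `π_{n+1,v}`, `π_{n,v}` for the primes
`v` of `F` outside a finite set `S`, and `p_k(t_v)`, `p_k(t'_v)` the traces of the standard representations at
`t_v^k`, `t'_v^k`. For `γ > π/2` and `T > 0` put

`S(T) = ∑_{v ∉ S} ∑_{k ≥ 1} p_k(t_v) p_k(t'_v) / (k N(v)^{k/2}) · exp(iγ k log N(v) / T) / Γ(1 + k log N(v) / T)`.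

The series converges absolutely, although `s = 1/2` is outside the region of convergence of the Euler product.
Let `L(s) = L^S(s, π_{n+1} ⊠ π_n)`; as the local factors of tempered representations have neither zeros nor poles
at `1/2`, `Λ ≠ 0` means `L(1/2) ≠ 0`. Without any hypothesis on zeros:

* `exp(S(T)) → L(1/2)` for `T → ∞`, also if `L(1/2) = 0`;
* `Re S(T) / log T → -m`, where `m` is the order of the zero at `1/2`;
* `L(1/2) ≠ 0` if and only if `S(T)` converges, if and only if `Re S(T_k) ≥ B` for one number `B` and one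
  sequence `T_k → ∞`; otherwise `Re S(T) → -∞`.

So Q1 says that the period is not identically zero if and only if the real parts of these sums over the
products of the power traces are bounded below along one sequence.

The law for Euler products with complex coefficients at an arbitrary real point is due to helper453 (library
`Pool.Agent.Run7.h453.CX`, used in `MP_46b841_nt.ChebotarevAtZero`).
-/

set_option autoImplicit false

open Filter Topology Set NumberField IsDedekindDomain Run7.h479.XX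

namespace Pool.Agent.Results.MP_6342b0_nt.CentralValueByTraces

variable {K : Type} [Field K] [NumberField K] {M N : ℕ}

/-- **Theorem.** Let `b_v`, `c_v` be the eigenvalues of the Satake parameters, of absolute value `1`, `L` the
partial L-function, analytic at `1/2`, and `γ > π/2`, `S(T) = sum S b c γ T`.

* The series `S(T)` converges absolutely for `T > 0`.
* `exp(S(T)) → L(1/2)` for `T → ∞`.
* There is an order `m ≥ 0` of `L` at `1/2`, and `Re S(T) / log T → -m`.
* `L(1/2) ≠ 0` iff `S(T)` converges; iff `Re S(T)` is bounded below along one sequence `T_k → ∞`.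
* `L(1/2) = 0` iff `Re S(T) → -∞`. -/
theorem result (S : Set (HeightOneSpectrum (𝓞 K))) (b : HeightOneSpectrum (𝓞 K) → Fin M → ℂ)
    (c : HeightOneSpectrum (𝓞 K) → Fin N → ℂ) (L : ℂ → ℂ) (h : Tensor.IsL S b c L)
    (han : AnalyticAt ℂ L ((1 / 2 : ℝ) : ℂ)) (γ : ℝ) (hγ : Real.pi / 2 < γ) :
    (∀ T : ℝ, 0 < T → Summable fun x => ‖Tensor.term S b c γ T x‖) ∧
    Tendsto (fun T : ℝ => Complex.exp (Tensor.sum S b c γ T)) atTop (𝓝 (L ((1 / 2 : ℝ) : ℂ))) ∧
    (∃ m : ℕ, meromorphicOrderAt L ((1 / 2 : ℝ) : ℂ) = (m : ℤ) ∧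
      Tendsto (fun T : ℝ => (Tensor.sum S b c γ T).re / Real.log T) atTop (𝓝 (-(m : ℝ)))) ∧
    (L ((1 / 2 : ℝ) : ℂ) ≠ 0 ↔ ∃ ρ : ℂ, Tendsto (fun T : ℝ => Tensor.sum S b c γ T) atTop (𝓝 ρ)) ∧
    (L ((1 / 2 : ℝ) : ℂ) ≠ 0 ↔ ∃ (B : ℝ) (T : ℕ → ℝ), Tendsto T atTop atTop ∧
      ∀ k, B ≤ (Tensor.sum S b c γ (T k)).re) ∧
    (L ((1 / 2 : ℝ) : ℂ) = 0 ↔ Tendsto (fun T : ℝ => (Tensor.sum S b c γ T).re) atTop atBot) := by
  have hs : ∀ T : ℝ, Tensor.sum S b c γ T = Centre.sum (Tensor.par S b c) (1 / 2) γ T :=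
    fun T => Tensor.sum_eq γ T
  obtain ⟨h1, h2, h3, h4⟩ := h.isL.nonvanishing han hγ
  simp_rw [← hs] at h1 h2 h3 h4
  refine ⟨fun T hT => ?_, ?_, h1, h2, h3, h4⟩
  · exact (h.isL.summable γ hT).congr fun x => by rw [Tensor.term_eq]
  · simp_rw [hs]
    exact h.isL.value han.continuousAt hγ

end Pool.Agent.Results.MP_6342b0_nt.CentralValueByTraces
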